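import Mathlib
import Pool.Agent.H16.QP

set_option autoImplicit false

namespace Pool.Agent.Results.MP_484ff1_al.Exists
open Pool.Agent.H16.QP

theorem result : ∃ (G : Type) (_ : Group G), Group.FG G ∧ ∃ Y : ℝ → Set G,
    (∀ r, QPar (Y r)) ∧ ∀ r s, r < s → Le (Y r) (Y s) ∧ ¬ Le (Y s) (Y r) :=
  ⟨W, inferInstance, fg, chain⟩

end Pool.Agent.Results.MP_484ff1_al.Exists
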